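import Mathlib

/-! A non-chiral `SU(2)` gauge theory whose Rains function is positive near the origin but takes
a negative value. The Cartan coordinate `x` is normalised so that the defining representation
has weights `±1` and the roots are `±2`. -/

namespace Pool.Agent.Results.MP_4046ef_mp.SU2Example

open Finset

/-- `ϑ(x) = {x}(1 - {x})`. -/
noncomputable def th (x : ℝ) : ℝ := Int.fract x * (1 - Int.fract x)

/-- The weights `l, l - 2, …, -l` of the irreducible representation of dimension `l + 1`. -/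
def wt (l : ℕ) (i : Fin (l + 1)) : ℝ := (l : ℝ) - 2 * (i : ℕ)

/-- The Rains function of the `SU(2)` theory with irreducible representations of highest weights
`l j` and R-charges `r j`. -/
noncomputable def rains {n : ℕ} (l : Fin n → ℕ) (r : Fin n → ℝ) (x : ℝ) : ℝ :=
  1 / 2 * ∑ j, (1 - r j) * ∑ i, th (wt (l j) i * x) - th (2 * x)

lemma th_neg (x : ℝ) : th (-x) = th x := by
  unfold th
  by_cases h : Int.fract x = 0
  · rw [Int.fract_neg_eq_zero.2 h, h]
  · rw [Int.fract_neg h]; ring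

lemma th_small {x : ℝ} (h : |x| < 1) : th x = |x| - x ^ 2 := by
  rcases le_total 0 x with h0 | h0
  · rw [abs_of_nonneg h0] at *
    rw [th, Int.fract_eq_self.2 ⟨h0, h⟩]; ring
  · rw [abs_of_nonpos h0] at *
    rw [← th_neg, th, Int.fract_eq_self.2 ⟨by linarith, h⟩]; ring

lemma rains_eq (x : ℝ) : rains ![2, 2, 3] ![1 / 4, 1 / 4, 6 / 5] x =
    1 / 2 * th (2 * x) - 1 / 5 * (th (3 * x) + th x) := by
  have a : ∑ i, th (wt 2 i * x) = 2 * th (2 * x) := by
    rw [Fin.sum_univ_three, show wt 2 0 * x = 2 * x by norm_num [wt],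
      show wt 2 1 * x = 0 by norm_num [wt], show wt 2 2 * x = -(2 * x) by
        simp only [wt, Fin.val_two]; push_cast; ring, th_neg]
    simp [th]; ring
  have b : ∑ i, th (wt 3 i * x) = 2 * (th (3 * x) + th x) := by
    rw [Fin.sum_univ_four, show wt 3 0 * x = 3 * x by norm_num [wt],
      show wt 3 1 * x = x by norm_num [wt], show wt 3 2 * x = -x by
        simp only [wt, Fin.val_two]; push_cast; ring,
      show wt 3 3 * x = -(3 * x) by
        simp only [wt, show ((3 : Fin (3 + 1)) : ℕ) = 3 from rfl]; push_cast; ring, th_neg, th_neg]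
    ring
  rw [rains, Fin.sum_univ_three]
  change 1 / 2 * ((1 - 1 / 4) * ∑ i, th (wt 2 i * x) + (1 - 1 / 4) * ∑ i, th (wt 2 i * x) +
    (1 - 6 / 5) * ∑ i, th (wt 3 i * x)) - _ = _
  rw [a, b]; ring

theorem result : ∃ (n : ℕ) (l : Fin n → ℕ) (r : Fin n → ℝ), (∀ j, 0 < r j ∧ r j < 2) ∧
    ∑ j, (r j - 1) * ∑ i, wt (l j) i ^ 2 + (2 ^ 2 + (-2) ^ 2) = 0 ∧
    (∃ ε > 0, ∀ x, 0 < |x| → |x| < ε → 0 < rains l r x) ∧ ∃ x, rains l r x < 0 := by
  refine ⟨3, ![2, 2, 3], ![1 / 4, 1 / 4, 6 / 5], fun j => ?_, ?_,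
    ⟨1 / 3, by norm_num, fun x h0 h1 => ?_⟩, 1 / 2, ?_⟩
  · fin_cases j <;> norm_num
  · rw [Fin.sum_univ_three]
    change (1 / 4 - 1) * ∑ i, wt 2 i ^ 2 + (1 / 4 - 1) * ∑ i, wt 2 i ^ 2 +
      (6 / 5 - 1) * ∑ i, wt 3 i ^ 2 + _ = _
    simp only [wt, Fin.sum_univ_succ, Fin.val_succ, Fin.val_zero, Fin.sum_univ_zero]
    norm_num
  · have a : |2 * x| = 2 * |x| := by rw [abs_mul, abs_two]
    have b : |3 * x| = 3 * |x| := by rw [abs_mul, abs_of_pos (by norm_num : (0 : ℝ) < 3)]
    rw [rains_eq, th_small (x := 2 * x) (by linarith), th_small (x := 3 * x) (by linarith),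
      th_small (x := x) (by linarith), a, b]
    linarith
  · have : th (3 * (1 / 2)) = th (1 / 2) := by
      unfold th
      rw [show (3 * (1 / 2) : ℝ) = 1 / 2 + 1 by norm_num, Int.fract_add_one]
    rw [rains_eq, this, th_small (x := 1 / 2) (by norm_num [abs_of_pos])]
    norm_num [th, abs_of_pos]

end Pool.Agent.Results.MP_4046ef_mp.SU2Example
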